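import Pool.Agent.MP78.T19

/-!
# The rank-zero criterion for Cohen–Lenstra limits of Haar-random `p`-adic matrices
with arbitrary prescribed supports

All definitions used in the statement are in `Pool/Agent/MP78/Defs.lean`.
-/

namespace Pool.Agent.Results.MP_78de02_pr.RankZeroCriterion

/-- For every prime `p` and every sequence of supports, `cok(X_n)` converges to the Cohen–Lenstra
distribution if and only if `P(det(X_n mod p) ≠ 0) → c_p`. -/
theorem result (p : ℕ) [Fact p.Prime] (Sig : ∀ n : ℕ, Fin n → Set (Fin n)) :
    Pool.MP78.ConvergesToCL p Sig ↔ Pool.MP78.ConvergesAtZero p Sig :=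
  Pool.MP78.rankZeroCriterion p Sig

end Pool.Agent.Results.MP_78de02_pr.RankZeroCriterion
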